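import Mathlib
import Pool.Agent.H8.SSep.Defs
import Pool.Agent.H8.SSep.Main3

set_option autoImplicit false

open TopologicalSpace

namespace Pool.Agent.Results.MP_67c6ba_gt.RealLine

open Pool.Agent.H8.SSep

theorem result :
    ¬ SSeparable (Multiplicative ℝ) ∧
    (∃ (G : Type) (_ : Group G) (_ : TopologicalSpace G), IsTopologicalGroup G ∧
      SeparableSpace G ∧ MetrizableSpace G ∧ ¬ SSeparable G) ∧
    (∃ (H : Type) (_ : CommGroup H) (_ : TopologicalSpace H) (_ : IsTopologicalGroup H)
      (_ : T2Space H), (∀ K : Subgroup H, SeparableSpace K) ∧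
      ∃ C : Subgroup (Multiplicative ℝ × H), IsClosed (C : Set (Multiplicative ℝ × H)) ∧
        ¬ SeparableSpace C) := by
  refine ⟨real_not, ⟨Multiplicative ℝ, inferInstance, inferInstance, inferInstance, ?_, ?_, real_not⟩,
    main_ex⟩
  · exact inferInstanceAs (SeparableSpace ℝ)
  · exact inferInstanceAs (MetrizableSpace ℝ)

end Pool.Agent.Results.MP_67c6ba_gt.RealLine
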